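import Pool.Agent.Helper77.RL.Goals2
import Pool.Agent.Helper14.RD.TOW
import Pool.Agent.Helper40.RS.Gal
import Pool.Agent.Helper90.RP.SUB

/-!
# Project RL (MP_fc6b1e_nt), part II, packet RL-FRE: decomposition groups in the square
-/

namespace Pool.Agent.Helper22.RL

open NumberField Polynomial Module IsDedekindDomain TensorProduct Pool.Agent.Helper51.SigLeo
open Pool.Agent.Helper51.RP
open Pool.Agent.Helper14.RD (res res_comm res_inj)
open Pool.Agent.Helper40.RS (bel conj_of_bel)
open Pool.Agent.Helper90.RP (exists_pull)

theorem mem_iff {M M' : Type} [Field M] [NumberField M] [Field M'] [NumberField M'] [Algebra M M']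
    (U : HeightOneSpectrum (𝓞 M')) (y : 𝓞 M) :
    algebraMap (𝓞 M) (𝓞 M') y ∈ U.asIdeal ↔ U.valuation M' (algebraMap M M' (y : M)) < 1 := by
  have e2 : algebraMap M M' (y : M) = algebraMap (𝓞 M') M' (algebraMap (𝓞 M) (𝓞 M') y) := by
    rfl
  rw [e2, HeightOneSpectrum.valuation_lt_one_iff_mem]

theorem l_fre (h1 : Pool.Agent.Helper77.RL.L_SQR) : Pool.Agent.Helper77.RL.L_FRE := by
  intro p hp n K M L M' _ _ _ _ _ _ _ _ _ _ _ _ _ _ _ hS W w hWw
  have hfin : FiniteDimensional K M' := inferInstance
  have hfinM : FiniteDimensional K M := inferInstance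
  obtain ⟨hd1, hd2, hG1, hG2, hext⟩ := h1 p n K M L M' hS
  have hGM := hS.galM
  have hGL := hS.galL
  have : W.asIdeal.LiesOver w.asIdeal := ⟨hWw.symm⟩
  have hne : w.asIdeal.ramificationIdx' W.asIdeal ≠ 0 :=
    Ideal.IsDedekindDomain.ramificationIdx'_ne_zero_of_liesOver W.asIdeal w.ne_bot
  constructor
  · intro hF g hg
    obtain ⟨f, hfM, hfL⟩ := hext g 1
    obtain ⟨W', -, hW'⟩ := exists_pull (K := K) f W
    -- `W'` is above `w`
    have hval : ∀ x : M, W'.valuation M' (algebraMap M M' x) =
        W.valuation M' (algebraMap M M' x) := by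
      intro x
      rw [← hW', hfM, ← HeightOneSpectrum.valuation_liesOver (K := M) M' w W (g x), hg,
        HeightOneSpectrum.valuation_liesOver (K := M) M' w W x]
    have hbel : bel M W' = bel M W := by
      apply HeightOneSpectrum.ext
      show W'.asIdeal.comap (algebraMap (𝓞 M) (𝓞 M')) = W.asIdeal.comap (algebraMap (𝓞 M) (𝓞 M'))
      ext y
      rw [Ideal.mem_comap, Ideal.mem_comap, mem_iff, mem_iff, hval]
    obtain ⟨h, hh⟩ := conj_of_bel (K := M) W' W hbel
    set h' : M' ≃ₐ[K] M' := h.restrictScalars K with hh'
    have h'apply : ∀ y, h' y = h y := fun y => rfl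
    have hcomm : f * h' = h' * f := by
      have key : (h' * f)⁻¹ * (f * h') = 1 := by
        apply hS.gen
        · intro x
          rw [AlgEquiv.mul_apply, AlgEquiv.mul_apply, h'apply, h.commutes, hfM]
          have : (h' * f) (algebraMap M M' x) = algebraMap M M' (g x) := by
            rw [AlgEquiv.mul_apply, hfM, h'apply, h.commutes]
          rw [← this]
          exact AlgEquiv.symm_apply_apply (h' * f) _
        · intro y
          have hres : h' (algebraMap L M' y) =
              algebraMap L M' (AlgEquiv.restrictNormal h' L y) :=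
            (AlgEquiv.restrictNormal_commutes h' L y).symm
          have e1 : (f * h') (algebraMap L M' y) =
              algebraMap L M' (AlgEquiv.restrictNormal h' L y) := by
            rw [AlgEquiv.mul_apply, hres, hfL]
            rfl
          have e2 : (h' * f) (algebraMap L M' y) =
              algebraMap L M' (AlgEquiv.restrictNormal h' L y) := by
            rw [AlgEquiv.mul_apply, hfL, ← hres]
            rfl
          rw [AlgEquiv.mul_apply, e1, ← e2]
          exact AlgEquiv.symm_apply_apply (h' * f) _
      have := congrArg (fun t => (h' * f) * t) key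
      simpa [mul_assoc] using this
    have hpow : h' ^ (p ^ n) = 1 := by
      have e1 : h ^ (p ^ n) = 1 := by
        rw [← hd1, ← IsGalois.card_aut_eq_finrank M M']
        exact pow_card_eq_one'
      have e2 : h' = AlgEquiv.restrictScalarsHom K h := rfl
      rw [e2, ← map_pow, e1, map_one]
    have hpres : ∀ k : ℕ, ∀ y : M', W.valuation M' (((f * h') ^ k) y) = W.valuation M' y := by
      intro k
      induction k with
      | zero => intro y; rw [pow_zero, AlgEquiv.one_apply]
      | succ k ih =>
        intro y
        rw [pow_succ, AlgEquiv.mul_apply, ih, AlgEquiv.mul_apply, hW', h'apply, hh]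
    have hfpow : (f * h') ^ (p ^ n) = f ^ (p ^ n) := by
      have hc : Commute f h' := hcomm
      rw [hc.mul_pow, hpow, mul_one]
    have hfL' : ∀ k : ℕ, ∀ y : L, (f ^ k) (algebraMap L M' y) = algebraMap L M' y := by
      intro k
      induction k with
      | zero => intro y; rw [pow_zero, AlgEquiv.one_apply]
      | succ k ih =>
        intro y
        rw [pow_succ, AlgEquiv.mul_apply, hfL]
        exact ih y
    have hfM' : ∀ k : ℕ, ∀ x : M, (f ^ k) (algebraMap M M' x) = algebraMap M M' ((g ^ k) x) := by
      intro k
      induction k with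
      | zero => intro y; rw [pow_zero, pow_zero, AlgEquiv.one_apply, AlgEquiv.one_apply]
      | succ k ih =>
        intro y
        rw [pow_succ, pow_succ, AlgEquiv.mul_apply, hfM, ih, AlgEquiv.mul_apply]
    let F : M' ≃ₐ[L] M' := AlgEquiv.ofRingEquiv (f := (f ^ (p ^ n)).toRingEquiv)
      (fun y => hfL' (p ^ n) y)
    have hF1 : F = 1 := by
      apply hF
      intro y
      have : F y = ((f * h') ^ (p ^ n)) y := by
        rw [hfpow]
        rfl
      rw [this, hpres]
    have hg1 : g ^ (p ^ n) = 1 := by
      apply AlgEquiv.ext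
      intro x
      apply (algebraMap M M').injective
      rw [← hfM', AlgEquiv.one_apply]
      have := DFunLike.congr_fun hF1 (algebraMap M M' x)
      exact this
    have ho1 : orderOf g ∣ p ^ n := orderOf_dvd_of_pow_eq_one hg1
    have ho2 : orderOf g ∣ finrank K M := by
      rw [← IsGalois.card_aut_eq_finrank K M]
      exact orderOf_dvd_natCard g
    have hcop : (finrank K M).Coprime (p ^ n) := Nat.Coprime.pow_right n hS.cop
    have ho3 : orderOf g = 1 := Nat.eq_one_of_dvd_coprimes hcop ho2 ho1
    exact orderOf_eq_one_iff.1 ho3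
  · intro hF g hg
    have hg' : res K L M M' g = 1 := by
      apply hF
      intro y
      have h1 := HeightOneSpectrum.valuation_liesOver (K := M) M' w W (res K L M M' g y)
      have h2 := HeightOneSpectrum.valuation_liesOver (K := M) M' w W y
      rw [res_comm, hg, ← h2] at h1
      exact (pow_left_inj₀ zero_le zero_le hne).mp h1
    have h1 : res K L M M' g = res K L M M' 1 := by rw [hg', map_one]
    exact res_inj K L M M' (fun g h1 h2 => hS.gen g h2 h1) h1

end Pool.Agent.Helper22.RL
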